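import Mathlib

/-!
Project CM (helper16): MP_773b62_nt, frozen statement S17475: there are Carmichael numbers `n` with
`φ(n) / n → 1`, hence `limsup F(n) / n = 1` over composite `n`. Exact statements of the tasks.
-/

open Finset

namespace Pool.Agent.W16.CM

/-- DAVP: Chevalley-Warning (Olson): zero-sum subsets modulo a prime -/
def St_DAVP : Prop := ∀ (p : ℕ) (Q s : Finset ℕ) (v : ℕ → ℕ → ℤ), p.Prime →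
  Q.card * (p - 1) < s.card → ∃ u ⊆ s, u.Nonempty ∧ ∀ r ∈ Q, (p : ℤ) ∣ ∑ i ∈ u, v i r

/-- DAV: zero-sum subsets modulo any integer, from DAVP by composition -/
def St_DAV : Prop := ∀ (M : ℕ) (Q s : Finset ℕ) (v : ℕ → ℕ → ℤ), 1 ≤ M → Q.Nonempty →
  Q.card ^ M.primeFactorsList.length * M ≤ s.card →
  ∃ u ⊆ s, u.Nonempty ∧ ∀ r ∈ Q, (M : ℤ) ∣ ∑ i ∈ u, v i r

/-- GRP: a subset with product `1` modulo every prime of `Q`, from DAV by discrete logarithms -/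
def St_GRP : Prop := ∀ (M : ℕ) (Q P : Finset ℕ), 1 ≤ M → Q.Nonempty →
  (∀ r ∈ Q, r.Prime ∧ r - 1 ∣ M ∧ ∀ p ∈ P, ¬ r ∣ p) →
  Q.card ^ M.primeFactorsList.length * M ≤ P.card →
  ∃ S ⊆ P, S.Nonempty ∧ ∀ r ∈ Q, (∏ p ∈ S, p) ≡ 1 [MOD r]

/-- KOR: Korselt's criterion and the number of Fermat liars -/
def St_KOR : Prop := ∀ (Q S : Finset ℕ) (k z : ℕ), (∀ r ∈ Q, r.Prime) → 1 ≤ k → 1 ≤ z →
  k.Coprime (∏ r ∈ Q, r) → S.Nonempty →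
  (∀ p ∈ S, p.Prime ∧ z < p ∧ ∃ d : ℕ, d ∣ (∏ r ∈ Q, r) ∧ d < (∏ r ∈ Q, r) ∧ p = d * k + 1) →
  (∀ r ∈ Q, (∏ p ∈ S, p) ≡ 1 [MOD r]) →
  ¬ (∏ p ∈ S, p).Prime ∧ (1 - (S.card : ℝ) / z) * ((∏ p ∈ S, p : ℕ) : ℝ) ≤
    (((Finset.range (∏ p ∈ S, p)).filter
      (fun a => a ^ ((∏ p ∈ S, p) - 1) ≡ 1 [MOD (∏ p ∈ S, p)])).card : ℝ)

/-- BTS: reciprocals of the primes in a class, upper bound (from Brun-Titchmarsh) -/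
def St_BTS : Prop := ∀ K : ℕ, 1 ≤ K → ∃ C : ℝ, 0 < C ∧ ∀ z q : ℕ, 32 ≤ z → 1 ≤ q → q ^ 8 ≤ z →
  ∑ p ∈ (Ioc z (z ^ K)).filter (fun p => p.Prime ∧ p ≡ 1 [MOD q]), (1 : ℝ) / p ≤ C / q.totient

/-- COP: many primes `p = dk + 1` with `k` free of primes of `Q` (from PR and BTS) -/
def St_COP : Prop := ∃ (K : ℕ) (c : ℝ), 1 ≤ K ∧ 0 < c ∧ ∃ T0 : ℕ, ∀ T : ℕ, T0 ≤ T →
  ∀ (Q : Finset ℕ) (d w z : ℕ), Q.card ≤ T ^ 98 → (∀ r ∈ Q, r.Prime ∧ T ^ 99 < r ∧ r ≤ T ^ 100) →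
  w = T ^ 92 → z = 3 ^ (T ^ w) → Odd d → d ≤ T ^ (100 * w) →
  c / (d.totient : ℝ) ≤ ∑ p ∈ (Ioc z (z ^ K)).filter
    (fun p => p.Prime ∧ p ≡ 1 [MOD d] ∧ ((p - 1) / d).Coprime (∏ r ∈ Q, r)), (1 : ℝ) / p

/-- BIN: the products of `T ^ 92` primes of `Q` -/
def St_BIN : Prop := ∀ (T : ℕ) (Q : Finset ℕ), 2 ≤ T → Q.card = T ^ 98 →
  (∀ r ∈ Q, r.Prime ∧ T ^ 99 < r ∧ r ≤ T ^ 100) →
  ∃ D : Finset ℕ, T ^ (5 * T ^ 92) ≤ D.card ∧ D.card ≤ 2 ^ (T ^ 98) ∧ ∀ d ∈ D, Odd d ∧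
    d ∣ (∏ r ∈ Q, r) ∧ d < (∏ r ∈ Q, r) ∧ T ^ (99 * T ^ 92) ≤ d ∧ d ≤ T ^ (100 * T ^ 92)

/-- PIG: Prachar's pigeonhole: one `k` serves many `d` -/
def St_PIG : Prop := ∀ (K : ℕ) (c : ℝ), 1 ≤ K → 0 < c → ∃ T0 : ℕ, ∀ T : ℕ, T0 ≤ T →
  ∀ (L w z : ℕ) (D : Finset ℕ), w = T ^ 92 → z = 3 ^ (T ^ w) → T ^ (5 * w) ≤ D.card →
  (∀ d ∈ D, T ^ (99 * w) ≤ d ∧ d ≤ T ^ (100 * w)) →
  (∀ d ∈ D, c / (d.totient : ℝ) ≤ ∑ p ∈ (Ioc z (z ^ K)).filter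
    (fun p => p.Prime ∧ p ≡ 1 [MOD d] ∧ ((p - 1) / d).Coprime L), (1 : ℝ) / p) →
  ∃ k : ℕ, 1 ≤ k ∧ k.Coprime L ∧
    T ^ (2 * w) ≤ (D.filter (fun d => (d * k + 1).Prime ∧ z < d * k + 1)).card

/-- MM: a small common multiple of all `r - 1` -/
def St_MM : Prop := ∃ T0 : ℕ, ∀ T : ℕ, T0 ≤ T → ∃ M : ℕ, 1 ≤ M ∧
  (∀ r : ℕ, r.Prime → r ≤ T ^ 100 → (∀ p : ℕ, p.Prime → p ∣ r - 1 → p ≤ T ^ 90) → r - 1 ∣ M) ∧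
  (T ^ 98) ^ M.primeFactorsList.length * M ≤ T ^ (2 * T ^ 92)

/-- MER: a Mertens (or Chebyshev) lower bound -/
def St_MER : Prop := ∃ T0 : ℕ, ∀ T : ℕ, T0 ≤ T →
  1 / Real.log T ≤ ∑ q ∈ (Ioc (T ^ 10) (T ^ 39)).filter Nat.Prime, (1 : ℝ) / q

/-- QA: primes with a divisor of `r - 1` of medium size, weighted (from Bombieri-Vinogradov) -/
def St_QA : Prop := ∃ T0 : ℕ, ∀ T : ℕ, T0 ≤ T →
  (T : ℝ) ^ 100 / (Real.log T) ^ 2 ≤ ∑ q ∈ (Ioc (T ^ 10) (T ^ 39)).filter Nat.Prime,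
    ∑ n ∈ (Icc 1 (T ^ 100)).filter (fun n => n ≡ 1 [MOD q]),
      ArithmeticFunction.vonMangoldt n * Real.log ((T : ℝ) ^ 100 / n)

/-- QB: many primes `r` with `r - 1` smooth (from QA) -/
def St_QB : Prop := ∃ T0 : ℕ, ∀ T : ℕ, T0 ≤ T → ∃ Q : Finset ℕ, Q.card = T ^ 98 ∧
  ∀ r ∈ Q, r.Prime ∧ T ^ 99 < r ∧ r ≤ T ^ 100 ∧ ∀ p : ℕ, p.Prime → p ∣ r - 1 → p ≤ T ^ 90

/-- FIN: the frozen statement -/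
def St_FIN : Prop := ∀ ε : ℝ, 0 < ε → ∀ N : ℕ, ∃ n : ℕ, N < n ∧ 1 < n ∧ ¬ Nat.Prime n ∧
      (1 - ε) * (n : ℝ) <
        (((Finset.range n).filter (fun a => a ^ (n - 1) ≡ 1 [MOD n])).card : ℝ)

end Pool.Agent.W16.CM
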