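import Mathlib
import Pool.Agent.W16.CM.Stm

/-! Project CM (helper16): assembly. -/

open Finset

namespace Pool.Agent.W16.CM

theorem top (hGRP : St_GRP) (hKOR : St_KOR) (hCOP : St_COP) (hBIN : St_BIN) (hPIG : St_PIG)
    (hMM : St_MM) (hQB : St_QB) : St_FIN := by
  obtain ⟨K, c, hK, hc, T1, hCOP⟩ := hCOP
  obtain ⟨T2, hPIG⟩ := hPIG K c hK hc
  obtain ⟨T3, hMM⟩ := hMM
  obtain ⟨T4, hQB⟩ := hQB
  intro ε hε N
  obtain ⟨T5, hT5⟩ := exists_nat_gt (1 / ε)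
  -- the parameter
  obtain ⟨T, hT1, hT2, hT3, hT4, hT5', hTN, hT6⟩ : ∃ T : ℕ, T1 ≤ T ∧ T2 ≤ T ∧ T3 ≤ T ∧ T4 ≤ T ∧
      T5 ≤ T ∧ N ≤ T ∧ 2 ≤ T :=
    ⟨T1 + T2 + T3 + T4 + T5 + N + 2, by omega, by omega, by omega, by omega, by omega, by omega,
      by omega⟩
  obtain ⟨Q, hQc, hQ⟩ := hQB T hT4
  obtain ⟨M, hM1, hMd, hMb⟩ := hMM T hT3
  have hQ' : ∀ r ∈ Q, r.Prime ∧ T ^ 99 < r ∧ r ≤ T ^ 100 := fun r hr =>
    ⟨(hQ r hr).1, (hQ r hr).2.1, (hQ r hr).2.2.1⟩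
  obtain ⟨D, hD1, hD2, hD⟩ := hBIN T Q hT6 hQc hQ'
  set w : ℕ := T ^ 92 with hw
  obtain ⟨z, hz⟩ : ∃ z : ℕ, z = 3 ^ (T ^ w) := ⟨_, rfl⟩
  obtain ⟨L, hL⟩ : ∃ L : ℕ, L = ∏ r ∈ Q, r := ⟨_, rfl⟩
  obtain ⟨k, hk1, hkL, hk⟩ := hPIG T hT2 L w z D hw hz hD1
    (fun d hd => ⟨(hD d hd).2.2.2.1, (hD d hd).2.2.2.2⟩)
    (fun d hd => by
      have h := hCOP T hT1 Q d w z hQc.le hQ' hw hz (hD d hd).1 (hD d hd).2.2.2.2
      rw [← hL] at h
      exact h)
  have hw98 : T ^ 98 ≤ T ^ w := by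
    apply Nat.pow_le_pow_right (by omega)
    calc 98 ≤ 2 ^ 92 := by norm_num
      _ ≤ T ^ 92 := Nat.pow_le_pow_left hT6 92
  have hTz : T ^ 100 < z := by
    have h1 : T ^ 100 ≤ T ^ w := by
      apply Nat.pow_le_pow_right (by omega)
      calc 100 ≤ 2 ^ 92 := by norm_num
        _ ≤ T ^ 92 := Nat.pow_le_pow_left hT6 92
    have h2 : T ^ w < 3 ^ (T ^ w) := Nat.lt_pow_self (by norm_num)
    omega
  have hTz1 : T < z := by
    have : T ^ 1 ≤ T ^ 100 := Nat.pow_le_pow_right (by omega) (by norm_num)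
    rw [pow_one] at this
    omega
  -- the set of primes
  obtain ⟨P, hP⟩ : ∃ P : Finset ℕ, P = (D.filter (fun d => (d * k + 1).Prime ∧ z < d * k + 1)).image
    (fun d => d * k + 1) := ⟨_, rfl⟩
  have hPc : P.card = (D.filter (fun d => (d * k + 1).Prime ∧ z < d * k + 1)).card := by
    rw [hP]
    apply card_image_of_injective
    intro a b hab
    have h1 : a * k = b * k := by simpa using hab
    exact Nat.eq_of_mul_eq_mul_right (by omega) h1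
  have hPD : P.card ≤ D.card := by rw [hPc]; exact card_filter_le _ _
  have hPm : ∀ p ∈ P, p.Prime ∧ z < p ∧ ∃ d : ℕ, d ∣ (∏ r ∈ Q, r) ∧ d < (∏ r ∈ Q, r) ∧
      p = d * k + 1 := by
    intro p hp
    rw [hP, mem_image] at hp
    obtain ⟨d, hd, rfl⟩ := hp
    rw [mem_filter] at hd
    exact ⟨hd.2.1, hd.2.2, d, (hD d hd.1).2.1, (hD d hd.1).2.2.1, rfl⟩
  have hQne : Q.Nonempty := by
    rw [← card_pos, hQc]; positivity
  obtain ⟨S, hSP, hSne, hS⟩ := hGRP M Q P hM1 hQne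
    (fun r hr => ⟨(hQ r hr).1, hMd r (hQ r hr).1 (hQ r hr).2.2.1 (hQ r hr).2.2.2, by
      intro p hp hrp
      have h1 := (hPm p hp)
      rcases (Nat.dvd_prime h1.1).1 hrp with h | h
      · exact (hQ r hr).1.one_lt.ne' h
      · have := (hQ r hr).2.2.1
        omega⟩)
    (by rw [hQc]; exact hMb.trans (hk.trans hPc.ge))
  have hkor := hKOR Q S k z (fun r hr => (hQ r hr).1) hk1 (by omega) (by rw [← hL]; exact hkL) hSne
    (fun p hp => hPm p (hSP hp)) hS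
  obtain ⟨n, hn⟩ : ∃ n : ℕ, n = ∏ p ∈ S, p := ⟨_, rfl⟩
  rw [← hn] at hkor
  obtain ⟨p0, hp0⟩ := hSne
  have hn0 : z < n := by
    have h1 : p0 ∣ n := by rw [hn]; exact dvd_prod_of_mem _ hp0
    have h2 : 0 < n := by
      rw [hn]
      exact prod_pos fun p hp => (hPm p (hSP hp)).1.pos
    exact (hPm p0 (hSP hp0)).2.1.trans_le (Nat.le_of_dvd h2 h1)
  refine ⟨n, by omega, by omega, hkor.1, lt_of_lt_of_le ?_ hkor.2⟩
  have hnr : (0 : ℝ) < n := by exact_mod_cast (by omega : 0 < n)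
  apply mul_lt_mul_of_pos_right _ hnr
  -- |S| / z < ε
  have hzr : (0 : ℝ) < z := by exact_mod_cast (by omega : 0 < z)
  have hSz : (S.card : ℝ) * T5 ≤ z := by
    have h1 : S.card ≤ 2 ^ (T ^ w) :=
      (card_le_card hSP).trans (hPD.trans (hD2.trans (Nat.pow_le_pow_right (by norm_num) hw98)))
    have h2 : T5 ≤ T ^ w := by
      calc T5 ≤ T ^ 1 := by simpa using hT5'
        _ ≤ T ^ 98 := Nat.pow_le_pow_right (by omega) (by norm_num)
        _ ≤ T ^ w := hw98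
    have h3 : S.card * T5 ≤ 2 ^ (T ^ w) * T ^ w := Nat.mul_le_mul h1 h2
    -- `2 ^ m * m ≤ 3 ^ m`
    have h4 : ∀ m : ℕ, 4 ≤ m → 2 ^ m * m ≤ 3 ^ m := by
      intro m hm
      induction m, hm using Nat.le_induction with
      | base => norm_num
      | succ m hm ih =>
        have : m + 1 ≤ m + m / 4 + 1 := by omega
        calc 2 ^ (m + 1) * (m + 1) = 2 ^ m * (2 * (m + 1)) := by ring
          _ ≤ 2 ^ m * (3 * m) := Nat.mul_le_mul_left _ (by omega)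
          _ = 3 * (2 ^ m * m) := by ring
          _ ≤ 3 * 3 ^ m := Nat.mul_le_mul_left _ ih
          _ = 3 ^ (m + 1) := by ring
    have h5 : 4 ≤ T ^ w := by
      calc 4 ≤ 2 ^ 98 := by norm_num
        _ ≤ T ^ 98 := Nat.pow_le_pow_left hT6 98
        _ ≤ T ^ w := hw98
    have h6 := h3.trans (h4 _ h5)
    rw [← hz] at h6
    exact_mod_cast h6
  have hT5r : (0 : ℝ) < T5 := lt_trans (by positivity) hT5
  have hTε : 1 < ε * T5 := by
    rw [div_lt_iff₀ hε] at hT5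
    linarith
  have hSpos : (0 : ℝ) ≤ S.card := by positivity
  have : (S.card : ℝ) / z < ε := by
    rw [div_lt_iff₀ hzr]
    have hSc : (0 : ℝ) < S.card := by
      exact_mod_cast card_pos.2 ⟨p0, hp0⟩
    nlinarith
  linarith

end Pool.Agent.W16.CM
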