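import Mathlib
import Pool.Agent.W16.CM.Top
import Pool.Agent.W344.CM.Davp
import Pool.Agent.W261.CM.DAV
import Pool.Agent.W924.CM.GRP
import Pool.Agent.W140.CM.Kor
import Pool.Agent.W330.CM.BTS
import Pool.Agent.W460.CM.COP
import Pool.Agent.W929.CM_BIN
import Pool.Agent.W225.CM.PIG
import Pool.Agent.W687.CM.MM
import Pool.Agent.W898.CM.MER
import Pool.Agent.W381.CM.QA
import Pool.Agent.W799.CM.QB
import Pool.Agent.W333.MH.FL
import Pool.Agent.W933.MH.Sum
import Pool.Agent.W505.MH.Diff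
import Pool.Agent.W505.MH.BT
import Pool.Agent.W74.MH.B0
import Pool.Agent.W440.MH.B2
import Pool.Agent.W639.MH.Alg
import Pool.Agent.W215.MH.Eul
import Pool.Agent.W193.MH.Cls
import Pool.Agent.W701.MH.Abs
import Pool.Agent.W215.MH.Lin
import Pool.Agent.W803.MH.Tail
import Pool.Agent.W803.MH.Real
import Pool.Agent.W928.MH.PR

/-! Project CM (helper16): the main theorem. -/

namespace Pool.Agent.W16.CM

/-- primes in progressions to moduli `2 ^ k * d`, assembled as in `Pool.Agent.W69.MH.Top` -/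
theorem prim : Pool.Agent.W69.MH.St_PR := by
  have hSUM := Pool.Agent.W933.MHSum.sum_
  have hFL := Pool.Agent.W333.MH.fl
  have hDIFF := Pool.Agent.W505.MH.diff hFL hSUM
  have hA0 := Pool.Agent.W505.MH.a0 hFL hSUM
  have hCLS := Pool.Agent.W193.MH.Cls.cls hSUM
  have hB0 := Pool.Agent.H262R3.Lk.b0 Pool.Agent.W505.MH.bt hSUM
  have hB2 := Pool.Agent.W440.MH.b2 hSUM
  have hALG := Pool.Agent.H262R3.Lk.alg hSUM
  have hLIN := Pool.Agent.W215.MH.lin hSUM hDIFF hA0 hB0 hB2 hALG Pool.Agent.W215.MH.eul hCLS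
    Pool.Agent.W701.MH.abs_
  have hTAIL := Pool.Agent.W803.MH.tail Pool.Agent.W505.MH.bt hSUM
  exact Pool.Agent.W928.MH.pr hLIN hTAIL Pool.Agent.W803.MH.real_

/-- there are Carmichael numbers `n` with `F(n) / n` arbitrarily close to `1` -/
theorem main : St_FIN :=
  top (Pool.Agent.W924.CM.GRP.grp (Pool.Agent.W261.CM.DAV.dav Pool.Agent.W344.CM.davp))
    Pool.Agent.W140.CM.kor (Pool.Agent.W460.CM.COP.cop prim Pool.Agent.W330.CM.bts)
    Pool.Agent.W929.CMBIN.bin Pool.Agent.W225.CM.pig Pool.Agent.W687.CM.mm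
    (Pool.Agent.W799.CM.qb (Pool.Agent.W381.CM.qa Pool.Agent.W898.CM.mer))

end Pool.Agent.W16.CM
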