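import Pool.Agent.W16.CM.Stm2
import Pool.Agent.W225.CM.PIG

/-!
# Prachar's pigeonhole
-/

set_option autoImplicit false

open Finset

namespace Pool.Agent.W16.CM

open Pool.Agent.W225.CM (one_d harm)

theorem pig2 : St_PIG2 := by
  classical
  intro K c hK hc
  obtain ⟨T0, hT0⟩ := exists_nat_gt (3 * (K : ℝ) / c)
  refine ⟨T0 + 1, fun T hT L w z D hw hz hD hDd hS => ?_⟩
  by_contra hcon
  push Not at hcon
  have hT1 : 1 ≤ T := by omega
  have hT1' : (1 : ℝ) ≤ T := by exact_mod_cast hT1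
  have hw1 : 1 ≤ w := by
    rw [hw]
    exact Nat.one_le_pow _ _ hT1
  have hz1 : 1 ≤ z := by
    rw [hz]
    exact Nat.one_le_pow _ _ (by norm_num)
  have hzK : 1 ≤ z ^ K := Nat.one_le_pow _ _ hz1
  have hA : (0 : ℝ) < (T : ℝ) ^ (99 * w) := by positivity
  -- the lower bound
  have h1 : c * (T : ℝ) ^ (5 * w) / (T : ℝ) ^ (100 * w) ≤ ∑ d ∈ D, c / (d.totient : ℝ) := by
    have h2 : ∀ d ∈ D, c / (T : ℝ) ^ (100 * w) ≤ c / (d.totient : ℝ) := by
      intro d hd
      have h3 := hDd d hd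
      have h4 : 1 ≤ d := (Nat.one_le_pow _ _ hT1).trans h3.1
      have h5 : (0 : ℝ) < (d.totient : ℝ) := by
        exact_mod_cast Nat.totient_pos.2 h4
      refine div_le_div_of_nonneg_left hc.le h5 ?_
      exact_mod_cast (Nat.totient_le d).trans h3.2
    have h3 := Finset.sum_le_sum h2
    rw [sum_const, nsmul_eq_mul] at h3
    refine le_trans ?_ h3
    have h4 : ((T : ℝ) ^ (5 * w)) ≤ (D.card : ℝ) := by exact_mod_cast hD
    have h5 : 0 ≤ c / (T : ℝ) ^ (100 * w) := by positivity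
    calc c * (T : ℝ) ^ (5 * w) / (T : ℝ) ^ (100 * w) =
        (T : ℝ) ^ (5 * w) * (c / (T : ℝ) ^ (100 * w)) := by ring
      _ ≤ _ := mul_le_mul_of_nonneg_right h4 h5
  -- the upper bound
  have h2 : ∑ d ∈ D, c / (d.totient : ℝ) ≤
      (T : ℝ) ^ (2 * w) / (T : ℝ) ^ (99 * w) * (1 + Real.log ((z ^ K : ℕ) : ℝ)) := by
    calc ∑ d ∈ D, c / (d.totient : ℝ) ≤ ∑ d ∈ D, ∑ k ∈ (Icc 1 (z ^ K)).filter
          (fun k => k.Coprime L ∧ (d * k + 1).Prime ∧ z < d * k + 1),
          (1 : ℝ) / ((d : ℝ) * k) := by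
          refine sum_le_sum fun d hd => ?_
          have h4 : 1 ≤ d := (Nat.one_le_pow _ _ hT1).trans (hDd d hd).1
          exact (hS d hd).trans (one_d d (z ^ K) z L h4 hz1)
      _ ≤ ∑ d ∈ D, ∑ k ∈ (Icc 1 (z ^ K)).filter
          (fun k => k.Coprime L ∧ (d * k + 1).Prime ∧ z < d * k + 1),
          (1 : ℝ) / ((T : ℝ) ^ (99 * w) * k) := by
          refine sum_le_sum fun d hd => sum_le_sum fun k hk => ?_
          rw [mem_filter, mem_Icc] at hk
          have hk1 : (0 : ℝ) < k := by exact_mod_cast hk.1.1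
          have h3 : (T : ℝ) ^ (99 * w) ≤ (d : ℝ) := by exact_mod_cast (hDd d hd).1
          exact one_div_le_one_div_of_le (by positivity) (mul_le_mul_of_nonneg_right h3 hk1.le)
      _ = ∑ k ∈ Icc 1 (z ^ K), ((D.filter
          (fun d => k.Coprime L ∧ (d * k + 1).Prime ∧ z < d * k + 1)).card : ℝ) *
            (1 / ((T : ℝ) ^ (99 * w) * k)) := by
          simp only [sum_filter]
          rw [sum_comm]
          refine sum_congr rfl fun k _ => ?_
          rw [← sum_filter, sum_const, nsmul_eq_mul]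
      _ ≤ ∑ k ∈ Icc 1 (z ^ K), (T : ℝ) ^ (2 * w) * (1 / ((T : ℝ) ^ (99 * w) * k)) := by
          refine sum_le_sum fun k hk => ?_
          rw [mem_Icc] at hk
          refine mul_le_mul_of_nonneg_right ?_ (by positivity)
          by_cases hL : k.Coprime L
          · have h3 := hcon k hk.1 hk.2 hL
            have h4 : D.filter (fun d => k.Coprime L ∧ (d * k + 1).Prime ∧ z < d * k + 1) =
                D.filter (fun d => (d * k + 1).Prime ∧ z < d * k + 1) := by
              exact filter_congr fun d _ => ⟨fun h => h.2, fun h => ⟨hL, h⟩⟩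
            rw [h4]
            exact_mod_cast h3.le
          · have h4 : D.filter (fun d => k.Coprime L ∧ (d * k + 1).Prime ∧ z < d * k + 1) = ∅ := by
              refine filter_eq_empty_iff.2 fun d _ h => hL h.1
            rw [h4, card_empty, Nat.cast_zero]
            positivity
      _ = (T : ℝ) ^ (2 * w) / (T : ℝ) ^ (99 * w) * ∑ k ∈ Icc 1 (z ^ K), (1 : ℝ) / k := by
          rw [mul_sum]
          refine sum_congr rfl fun k _ => ?_
          rw [one_div, mul_inv, one_div, div_eq_mul_inv]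
          ring
      _ ≤ _ := mul_le_mul_of_nonneg_left (harm _ hzK) (by positivity)
  have h3 : Real.log ((z ^ K : ℕ) : ℝ) ≤ 2 * K * (T : ℝ) ^ w := by
    rw [hz]
    push_cast
    rw [Real.log_pow, Real.log_pow]
    push_cast
    have h4 : Real.log 3 ≤ 2 := by
      have := Real.log_le_sub_one_of_pos (show (0 : ℝ) < 3 by norm_num)
      linarith
    have h5 : (0 : ℝ) ≤ (K : ℝ) * (T : ℝ) ^ w := by positivity
    nlinarith
  have h4 := h1.trans h2
  have hKr : (1 : ℝ) ≤ K := by exact_mod_cast hK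
  have hTw : (1 : ℝ) ≤ (T : ℝ) ^ w := one_le_pow₀ hT1'
  have h5 : 1 + Real.log ((z ^ K : ℕ) : ℝ) ≤ 3 * K * (T : ℝ) ^ w := by
    have : (1 : ℝ) ≤ K * (T : ℝ) ^ w := by nlinarith
    linarith
  have h6 : c * (T : ℝ) ^ (5 * w) / (T : ℝ) ^ (100 * w) ≤
      (T : ℝ) ^ (2 * w) / (T : ℝ) ^ (99 * w) * (3 * K * (T : ℝ) ^ w) :=
    h4.trans (mul_le_mul_of_nonneg_left h5 (by positivity))
  have hTp : (0 : ℝ) < (T : ℝ) ^ w := by positivity
  have e1 : ∀ n : ℕ, (T : ℝ) ^ (n * w) = ((T : ℝ) ^ w) ^ n := by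
    intro n
    rw [mul_comm, pow_mul]
  rw [e1, e1, e1, e1] at h6
  generalize hX : (T : ℝ) ^ w = X at h6 hTp hTw
  have h7 : c * X ≤ 3 * K := by
    rw [div_mul_eq_mul_div, div_le_div_iff₀ (by positivity) (by positivity)] at h6
    have h8 : (X ^ 103) * (c * X) ≤ X ^ 103 * (3 * K) := by
      calc (X ^ 103) * (c * X) = c * X ^ 5 * X ^ 99 := by ring
        _ ≤ _ := h6
        _ = X ^ 103 * (3 * K) := by ring
    exact le_of_mul_le_mul_left h8 (by positivity)
  have h8 : (T : ℝ) ≤ X := by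
    rw [← hX]
    calc (T : ℝ) = (T : ℝ) ^ 1 := (pow_one _).symm
      _ ≤ _ := pow_le_pow_right₀ hT1' hw1
  have h9 : (T0 : ℝ) ≤ T := by
    exact_mod_cast (by omega : T0 ≤ T)
  have h10 : 3 * (K : ℝ) < c * T0 := by
    rw [div_lt_iff₀ hc] at hT0
    linarith
  nlinarith

end Pool.Agent.W16.CM
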