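import Mathlib
import Pool.Agent.W16.CM.Stm

/-! Project CM (helper16): stronger forms for the quantitative theorem. -/

open Finset

namespace Pool.Agent.W16.CM

/-- PIG with the extra bound `k ≤ z ^ K` -/
def St_PIG2 : Prop := ∀ (K : ℕ) (c : ℝ), 1 ≤ K → 0 < c → ∃ T0 : ℕ, ∀ T : ℕ, T0 ≤ T →
  ∀ (L w z : ℕ) (D : Finset ℕ), w = T ^ 92 → z = 3 ^ (T ^ w) → T ^ (5 * w) ≤ D.card →
  (∀ d ∈ D, T ^ (99 * w) ≤ d ∧ d ≤ T ^ (100 * w)) →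
  (∀ d ∈ D, c / (d.totient : ℝ) ≤ ∑ p ∈ (Ioc z (z ^ K)).filter
    (fun p => p.Prime ∧ p ≡ 1 [MOD d] ∧ ((p - 1) / d).Coprime L), (1 : ℝ) / p) →
  ∃ k : ℕ, 1 ≤ k ∧ k ≤ z ^ K ∧ k.Coprime L ∧
    T ^ (2 * w) ≤ (D.filter (fun d => (d * k + 1).Prime ∧ z < d * k + 1)).card

/-- MM with the sharper bound -/
def St_MM2 : Prop := ∃ T0 : ℕ, ∀ T : ℕ, T0 ≤ T → ∃ M : ℕ, 1 ≤ M ∧
  (∀ r : ℕ, r.Prime → r ≤ T ^ 100 → (∀ p : ℕ, p.Prime → p ∣ r - 1 → p ≤ T ^ 90) → r - 1 ∣ M) ∧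
  (T ^ 98) ^ M.primeFactorsList.length * M ≤ T ^ (9900 * T ^ 91)

/-- the quantitative theorem: Carmichael numbers with few prime factors -/
def St_FIN2 : Prop := ∀ ε : ℝ, 0 < ε → ∀ N : ℕ, ∃ n : ℕ, N < n ∧ 1 < n ∧ ¬ Nat.Prime n ∧
  (∀ a : ℕ, a.Coprime n → a ^ (n - 1) ≡ 1 [MOD n]) ∧
  (n.primeFactors.card : ℝ) ≤ (Real.log n) ^ ε ∧
  (1 - Real.exp (-(Real.log n) ^ (1 - ε))) * (n : ℝ) <
    (((Finset.range n).filter (fun a => a ^ (n - 1) ≡ 1 [MOD n])).card : ℝ)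

end Pool.Agent.W16.CM
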