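import Mathlib
import Pool.Agent.W16.CM.Stm
import Pool.Agent.W16.CM.Stm2
import Pool.Agent.W16.CM.PIG2
import Pool.Agent.W687.CM.MM

/-! Project CM (helper16): the quantitative theorem. -/

open Finset

namespace Pool.Agent.W16.CM

/-- the common multiple with the sharper bound (proof of helper687) -/
theorem mm2 : St_MM2 := by
  refine ⟨4950, fun T hT => ⟨(primorial (T ^ 90)) ^ (100 * T), ?_, ?_, ?_⟩⟩
  · exact Nat.one_le_pow _ _ (primorial_pos _)
  · intro r hr hrT hsm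
    have hr1 : r - 1 ≠ 0 := by have := hr.two_le; omega
    have hP0 : primorial (T ^ 90) ≠ 0 := (primorial_pos _).ne'
    rw [← Nat.factorization_prime_le_iff_dvd hr1 (pow_ne_zero _ hP0)]
    intro p hp
    by_cases hpd : p ∣ r - 1
    · have hple := hsm p hp hpd
      have hpP : p ∣ primorial (T ^ 90) := by
        unfold primorial
        apply Finset.dvd_prod_of_mem
        rw [Finset.mem_filter, Finset.mem_range]
        exact ⟨by omega, hp⟩
      have h1 : 1 ≤ (primorial (T ^ 90)).factorization p :=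
        (hp.dvd_iff_one_le_factorization hP0).1 hpP
      rw [Nat.factorization_pow]
      have h2 : (r - 1).factorization p ≤ 100 * T := by
        apply Nat.factorization_le_of_le_pow
        calc r - 1 ≤ T ^ 100 := by omega
          _ ≤ (2 ^ T) ^ 100 := Nat.pow_le_pow_left (Nat.lt_two_pow_self).le 100
          _ = 2 ^ (100 * T) := by rw [← pow_mul, Nat.mul_comm]
          _ ≤ p ^ (100 * T) := Nat.pow_le_pow_left hp.two_le _
      calc (r - 1).factorization p ≤ 100 * T := h2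
        _ ≤ 100 * T * (primorial (T ^ 90)).factorization p := Nat.le_mul_of_pos_right _ h1
        _ = _ := by simp
    · rw [Nat.factorization_eq_zero_of_not_dvd hpd]
      exact Nat.zero_le _
  · have hT1 : 1 ≤ T := by omega
    have hL : ((primorial (T ^ 90)) ^ (100 * T)).primeFactorsList.length ≤ 100 * T ^ 91 := by
      rw [Pool.Agent.W687.CM.omega_pow]
      calc 100 * T * (primorial (T ^ 90)).primeFactorsList.length ≤ 100 * T * T ^ 90 :=
            Nat.mul_le_mul_left _ (Pool.Agent.W687.CM.omega_primorial _)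
        _ = 100 * T ^ 91 := by rw [mul_assoc, ← pow_succ']
    have hM : (primorial (T ^ 90)) ^ (100 * T) ≤ 4 ^ (100 * T ^ 91) := by
      calc (primorial (T ^ 90)) ^ (100 * T) ≤ (4 ^ (T ^ 90)) ^ (100 * T) :=
            Nat.pow_le_pow_left (primorial_le_four_pow _) _
        _ = 4 ^ (100 * T ^ 91) := by
            rw [← pow_mul]; congr 1; ring
    calc (T ^ 98) ^ ((primorial (T ^ 90)) ^ (100 * T)).primeFactorsList.length *
          (primorial (T ^ 90)) ^ (100 * T)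
        ≤ (T ^ 98) ^ (100 * T ^ 91) * 4 ^ (100 * T ^ 91) :=
          Nat.mul_le_mul (Nat.pow_le_pow_right (Nat.one_le_pow _ _ hT1) hL) hM
      _ = (T ^ 98 * 4) ^ (100 * T ^ 91) := by rw [mul_pow]
      _ ≤ (T ^ 99) ^ (100 * T ^ 91) := by
          apply Nat.pow_le_pow_left
          rw [pow_succ T 98]
          exact Nat.mul_le_mul_left _ (by omega)
      _ = T ^ (9900 * T ^ 91) := by rw [← pow_mul]; congr 1; ring

/-- Korselt: the Fermat property (from the proof of helper140) -/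
theorem kor2 (Q S : Finset ℕ) (k z : ℕ) (hQ : ∀ r ∈ Q, r.Prime) (hcop : k.Coprime (∏ r ∈ Q, r))
    (hS : S.Nonempty)
    (hp : ∀ p ∈ S, p.Prime ∧ z < p ∧ ∃ d : ℕ, d ∣ (∏ r ∈ Q, r) ∧ d < (∏ r ∈ Q, r) ∧ p = d * k + 1)
    (h1 : ∀ r ∈ Q, (∏ p ∈ S, p) ≡ 1 [MOD r]) :
    (∏ p ∈ S, p).primeFactors = S ∧
    ∀ a : ℕ, a.Coprime (∏ p ∈ S, p) → a ^ ((∏ p ∈ S, p) - 1) ≡ 1 [MOD (∏ p ∈ S, p)] := by
  classical
  obtain ⟨n, hn⟩ : ∃ n, n = ∏ p ∈ S, p := ⟨_, rfl⟩
  obtain ⟨L, hL⟩ : ∃ L, L = ∏ r ∈ Q, r := ⟨_, rfl⟩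
  rw [← hn] at h1 ⊢
  rw [← hL] at hcop hp
  have hn1 : 1 ≤ n := by
    rw [hn]
    exact Finset.prod_pos fun p hpS => (hp p hpS).1.pos
  have hLn : L ∣ n - 1 := by
    rw [hL]
    refine Finset.prod_primes_dvd _ (fun r hr => (hQ r hr).prime) fun r hr => ?_
    exact (Nat.modEq_iff_dvd' hn1).1 (h1 r hr).symm
  have hkn : k ∣ n - 1 := by
    refine (Nat.modEq_iff_dvd' hn1).1 (Nat.ModEq.symm ?_)
    rw [hn]
    refine Finset.prod_induction (fun p => p) (fun m => m ≡ 1 [MOD k]) ?_ (Nat.ModEq.refl 1) ?_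
    · intro a b ha hb
      exact (ha.mul hb)
    · intro p hpS
      obtain ⟨_, _, d, _, _, he⟩ := hp p hpS
      show p ≡ 1 [MOD k]
      rw [he]
      unfold Nat.ModEq
      rw [Nat.add_mod, Nat.mul_mod_left, zero_add, Nat.mod_mod]
  have hpn : ∀ p ∈ S, p - 1 ∣ n - 1 := by
    intro p hpS
    obtain ⟨_, _, d, hd, _, he⟩ := hp p hpS
    rw [he, Nat.add_sub_cancel]
    refine dvd_trans (Nat.mul_dvd_mul_right hd k) ?_
    rw [mul_comm]
    exact hcop.mul_dvd_of_dvd_of_dvd hkn hLn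
  have hpdvd : ∀ p ∈ S, p ∣ n := fun p hpS => by
    rw [hn]; exact Finset.dvd_prod_of_mem _ hpS
  obtain ⟨p₀, hp₀⟩ := hS
  have hn2 : 2 ≤ n := (hp p₀ hp₀).1.two_le.trans (Nat.le_of_dvd hn1 (hpdvd p₀ hp₀))
  refine ⟨?_, ?_⟩
  · rw [hn]
    exact Nat.primeFactors_prod fun p hpS => (hp p hpS).1
  · intro a ha'
    have ha : n.Coprime a := ha'.symm
    have ha0 : a ≠ 0 := by
      rintro rfl
      rw [Nat.coprime_zero_right] at ha
      omega
    have ha1 : 1 ≤ a ^ (n - 1) := Nat.one_le_pow _ _ (Nat.pos_of_ne_zero ha0)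
    refine Nat.ModEq.symm ((Nat.modEq_iff_dvd' ha1).2 ?_)
    have h6 : (∏ p ∈ S, p) ∣ a ^ (n - 1) - 1 := by
      refine Finset.prod_primes_dvd _ (fun p hpS => (hp p hpS).1.prime) fun p hpS => ?_
      refine (Nat.modEq_iff_dvd' ha1).1 (Nat.ModEq.symm ?_)
      have hcp : Nat.Coprime a p :=
        (Nat.Coprime.coprime_dvd_left (hpdvd p hpS) ha).symm
      have h7 := Nat.ModEq.pow_totient hcp
      rw [Nat.totient_prime (hp p hpS).1] at h7
      obtain ⟨m, hm⟩ := hpn p hpS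
      rw [hm, pow_mul]
      have h8 := h7.pow m
      rwa [one_pow] at h8
    rw [← hn] at h6
    exact h6

/-- the comparison of growth used at the end -/
theorem growth (K : ℕ) : ∃ T0 : ℕ, ∀ T : ℕ, T0 ≤ T →
    9900 * Real.log T + Real.log (2 * (K + 1)) ≤ (T : ℝ) ^ (54 / 100 : ℝ) := by
  have h1 : Filter.Tendsto (fun x : ℝ => (9900 * Real.log x + Real.log (2 * (K + 1))) /
      x ^ (54 / 100 : ℝ)) Filter.atTop (nhds 0) := by
    have h2 : Filter.Tendsto (fun x : ℝ => Real.log x / x ^ (54 / 100 : ℝ)) Filter.atTop (nhds 0) :=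
      (isLittleO_log_rpow_atTop (by norm_num : (0 : ℝ) < 54 / 100)).tendsto_div_nhds_zero
    have h3 : Filter.Tendsto (fun x : ℝ => x ^ (54 / 100 : ℝ)) Filter.atTop Filter.atTop :=
      tendsto_rpow_atTop (by norm_num)
    have h4 := (h2.const_mul 9900).add (h3.const_div_atTop (Real.log (2 * (K + 1))))
    simp only [mul_zero, add_zero] at h4
    refine h4.congr fun x => ?_
    ring
  have h2 := h1.eventually (gt_mem_nhds (show (0 : ℝ) < 1 by norm_num))
  have h3 := (tendsto_natCast_atTop_atTop (R := ℝ)).eventually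
    (h2.and (Filter.eventually_gt_atTop (0 : ℝ)))
  obtain ⟨T0, hT0⟩ := Filter.eventually_atTop.1 h3
  refine ⟨T0, fun T hT => ?_⟩
  obtain ⟨h4, h5⟩ := hT0 T hT
  have h6 : (0 : ℝ) < (T : ℝ) ^ (54 / 100 : ℝ) := Real.rpow_pos_of_pos h5 _
  rw [div_lt_one h6] at h4
  exact h4.le

/-- `E n = exp ((log log n) ^ (199/200))` -/
noncomputable def EE (n : ℕ) : ℝ := Real.exp ((Real.log (Real.log n)) ^ (199 / 200 : ℝ))

/-- Carmichael numbers with few and large prime factors -/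
def St_FIN3 : Prop := ∀ N : ℕ, ∃ n : ℕ, N < n ∧ 1 < n ∧ ¬ Nat.Prime n ∧
  (∀ a : ℕ, a.Coprime n → a ^ (n - 1) ≡ 1 [MOD n]) ∧
  (n.primeFactors.card : ℝ) ≤ EE n ∧
  (∀ p : ℕ, p.Prime → p ∣ n → Real.log n / EE n < Real.log p) ∧
  (1 - Real.exp (-(Real.log n / EE n))) * (n : ℝ) <
    (((Finset.range n).filter (fun a => a ^ (n - 1) ≡ 1 [MOD n])).card : ℝ)

theorem top3 (hGRP : St_GRP) (hKOR : St_KOR) (hCOP : St_COP) (hBIN : St_BIN) (hPIG : St_PIG2)
    (hMM : St_MM2) (hQB : St_QB) : St_FIN3 := by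
  obtain ⟨K, c, hK, hc, T1, hCOP⟩ := hCOP
  obtain ⟨T2, hPIG⟩ := hPIG K c hK hc
  obtain ⟨T3, hMM⟩ := hMM
  obtain ⟨T4, hQB⟩ := hQB
  obtain ⟨T5, hgr⟩ := growth K
  intro N
  -- the parameter
  obtain ⟨T, hT1, hT2, hT3, hT4, hT5', hTN, hT6⟩ : ∃ T : ℕ, T1 ≤ T ∧ T2 ≤ T ∧ T3 ≤ T ∧ T4 ≤ T ∧
      T5 ≤ T ∧ N ≤ T ∧ 9900 ≤ T :=
    ⟨T1 + T2 + T3 + T4 + T5 + N + 9900, by omega, by omega, by omega, by omega, by omega, by omega,
      by omega⟩
  obtain ⟨Q, hQc, hQ⟩ := hQB T hT4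
  obtain ⟨M, hM1, hMd, hMb⟩ := hMM T hT3
  have hQ' : ∀ r ∈ Q, r.Prime ∧ T ^ 99 < r ∧ r ≤ T ^ 100 := fun r hr =>
    ⟨(hQ r hr).1, (hQ r hr).2.1, (hQ r hr).2.2.1⟩
  obtain ⟨D, hD1, hD2, hD⟩ := hBIN T Q (by omega) hQc hQ'
  set w : ℕ := T ^ 92 with hw
  obtain ⟨z, hz⟩ : ∃ z : ℕ, z = 3 ^ (T ^ w) := ⟨_, rfl⟩
  obtain ⟨L, hL⟩ : ∃ L : ℕ, L = ∏ r ∈ Q, r := ⟨_, rfl⟩
  obtain ⟨k, hk1, hkz, hkL, hk⟩ := hPIG T hT2 L w z D hw hz hD1
    (fun d hd => ⟨(hD d hd).2.2.2.1, (hD d hd).2.2.2.2⟩)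
    (fun d hd => by
      have h := hCOP T hT1 Q d w z hQc.le hQ' hw hz (hD d hd).1 (hD d hd).2.2.2.2
      rw [← hL] at h
      exact h)
  have hw100 : 20000 * T ^ 91 ≤ T ^ w := by
    have h1 : 20000 ≤ T ^ 2 := by nlinarith
    calc 20000 * T ^ 91 ≤ T ^ 2 * T ^ 91 := Nat.mul_le_mul_right _ h1
      _ = T ^ 93 := by rw [← pow_add]
      _ ≤ T ^ w := by
        apply Nat.pow_le_pow_right (by omega)
        calc 93 ≤ 2 ^ 92 := by norm_num
          _ ≤ T ^ 92 := Nat.pow_le_pow_left (by omega) 92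
  have hTz : T ^ 100 < z := by
    have h1 : T ^ 100 ≤ T ^ w := by
      apply Nat.pow_le_pow_right (by omega)
      calc 100 ≤ 2 ^ 92 := by norm_num
        _ ≤ T ^ 92 := Nat.pow_le_pow_left (by omega) 92
    have h2 : T ^ w < 3 ^ (T ^ w) := Nat.lt_pow_self (by norm_num)
    omega
  have hTz1 : T < z := by
    have : T ^ 1 ≤ T ^ 100 := Nat.pow_le_pow_right (by omega) (by norm_num)
    rw [pow_one] at this
    omega
  -- the set of primes
  obtain ⟨P, hP⟩ : ∃ P : Finset ℕ, P = (D.filter (fun d => (d * k + 1).Prime ∧ z < d * k + 1)).image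
    (fun d => d * k + 1) := ⟨_, rfl⟩
  have hPc : P.card = (D.filter (fun d => (d * k + 1).Prime ∧ z < d * k + 1)).card := by
    rw [hP]
    apply card_image_of_injective
    intro a b hab
    have h1 : a * k = b * k := by simpa using hab
    exact Nat.eq_of_mul_eq_mul_right (by omega) h1
  have hPm : ∀ p ∈ P, p.Prime ∧ z < p ∧ ∃ d : ℕ, d ∣ (∏ r ∈ Q, r) ∧ d < (∏ r ∈ Q, r) ∧
      p = d * k + 1 := by
    intro p hp
    rw [hP, mem_image] at hp
    obtain ⟨d, hd, rfl⟩ := hp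
    rw [mem_filter] at hd
    exact ⟨hd.2.1, hd.2.2, d, (hD d hd.1).2.1, (hD d hd.1).2.2.1, rfl⟩
  -- `T ^ (100 w) + 1 ≤ z`
  have hTw : T ^ (100 * w) + 1 ≤ z := by
    -- `T ^ (100 w) < 2 ^ (100 w T) ≤ 3 ^ (T ^ w)`
    have h1 : T ^ (100 * w) ≤ 2 ^ (T * (100 * w)) := by
      calc T ^ (100 * w) ≤ (2 ^ T) ^ (100 * w) := Nat.pow_le_pow_left (Nat.lt_two_pow_self).le _
        _ = 2 ^ (T * (100 * w)) := by rw [← pow_mul]
    have h2 : T * (100 * w) ≤ T ^ w := by
      have h3 : T * (100 * w) = 100 * T ^ 93 := by rw [hw]; ring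
      rw [h3]
      calc 100 * T ^ 93 ≤ T * T ^ 93 := Nat.mul_le_mul_right _ (by omega)
        _ = T ^ 94 := by rw [← pow_succ']
        _ ≤ T ^ w := by
          apply Nat.pow_le_pow_right (by omega)
          calc 94 ≤ 2 ^ 92 := by norm_num
            _ ≤ T ^ 92 := Nat.pow_le_pow_left (by omega) 92
    have h4 : 2 ^ (T * (100 * w)) ≤ 2 ^ (T ^ w) := Nat.pow_le_pow_right (by norm_num) h2
    have h5 : 2 ^ (T ^ w) < 3 ^ (T ^ w) := by
      apply Nat.pow_lt_pow_left (by norm_num)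
      have : 0 < T ^ w := by positivity
      omega
    omega
  have hPz : ∀ p ∈ P, p ≤ z ^ (K + 1) := by
    intro p hp
    rw [hP, mem_image] at hp
    obtain ⟨d, hd, rfl⟩ := hp
    rw [mem_filter] at hd
    have h1 := (hD d hd.1).2.2.2.2
    have h2 : 1 ≤ z ^ K := Nat.one_le_pow _ _ (by omega)
    calc d * k + 1 ≤ T ^ (100 * w) * z ^ K + z ^ K := by
          have := Nat.mul_le_mul h1 hkz
          omega
      _ = (T ^ (100 * w) + 1) * z ^ K := by ring
      _ ≤ z * z ^ K := Nat.mul_le_mul_right _ hTw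
      _ = z ^ (K + 1) := by rw [pow_succ']
  -- a subset of the right size
  have hle : T ^ (9900 * T ^ 91) ≤ T ^ (2 * w) := by
    apply Nat.pow_le_pow_right (by omega)
    calc 9900 * T ^ 91 ≤ T * T ^ 91 := Nat.mul_le_mul_right _ hT6
      _ = T ^ 92 := by rw [← pow_succ']
      _ ≤ 2 * w := by rw [hw]; omega
  obtain ⟨P', hP'P, hP'c⟩ : ∃ P' ⊆ P, P'.card = (T ^ 98) ^ M.primeFactorsList.length * M := by
    apply exists_subset_card_eq
    exact (hMb.trans hle).trans (hk.trans hPc.ge)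
  have hQne : Q.Nonempty := by
    rw [← card_pos, hQc]; positivity
  obtain ⟨S, hSP', hSne, hS⟩ := hGRP M Q P' hM1 hQne
    (fun r hr => ⟨(hQ r hr).1, hMd r (hQ r hr).1 (hQ r hr).2.2.1 (hQ r hr).2.2.2, by
      intro p hp hrp
      have h1 := (hPm p (hP'P hp))
      rcases (Nat.dvd_prime h1.1).1 hrp with h | h
      · exact (hQ r hr).1.one_lt.ne' h
      · have := (hQ r hr).2.2.1
        omega⟩)
    (by rw [hQc, hP'c])
  have hSP : S ⊆ P := hSP'.trans hP'P
  have hScard : S.card ≤ T ^ (9900 * T ^ 91) := (card_le_card hSP').trans (hP'c.le.trans hMb)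
  have hkor := hKOR Q S k z (fun r hr => (hQ r hr).1) hk1 (by omega) (by rw [← hL]; exact hkL) hSne
    (fun p hp => hPm p (hSP hp)) hS
  have hkor2 := kor2 Q S k z (fun r hr => (hQ r hr).1) (by rw [← hL]; exact hkL) hSne
    (fun p hp => hPm p (hSP hp)) hS
  obtain ⟨n, hn⟩ : ∃ n : ℕ, n = ∏ p ∈ S, p := ⟨_, rfl⟩
  rw [← hn] at hkor hkor2
  obtain ⟨p0, hp0⟩ := hSne
  have hn0 : z < n := by
    have h1 : p0 ∣ n := by rw [hn]; exact dvd_prod_of_mem _ hp0
    have h2 : 0 < n := by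
      rw [hn]
      exact prod_pos fun p hp => (hPm p (hSP hp)).1.pos
    exact (hPm p0 (hSP hp0)).2.1.trans_le (Nat.le_of_dvd h2 h1)
  -- `n ≤ z ^ ((K + 1) |S|)`
  have hnz : n ≤ z ^ ((K + 1) * S.card) := by
    rw [hn, pow_mul]
    exact prod_le_pow_card _ _ _ (fun p hp => hPz p (hSP hp))
  -- real estimates
  have hTr : (9900 : ℝ) ≤ T := by exact_mod_cast hT6
  have hT0 : (0 : ℝ) < T := by linarith
  have hzr : (0 : ℝ) < z := by exact_mod_cast (by omega : 0 < z)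
  have hlz : Real.log z = (T : ℝ) ^ w * Real.log 3 := by
    rw [hz]; push_cast; rw [Real.log_pow]; push_cast; ring
  have hl3 : 1 < Real.log 3 := by
    rw [Real.lt_log_iff_exp_lt (by norm_num)]
    have := Real.exp_one_lt_d9
    linarith
  have hTwr : (0 : ℝ) < (T : ℝ) ^ w := by positivity
  have hlz1 : (T : ℝ) ^ w ≤ Real.log z := by rw [hlz]; nlinarith
  have hlz0 : 0 < Real.log z := lt_of_lt_of_le hTwr hlz1
  have hnr : (0 : ℝ) < n := by exact_mod_cast (by omega : 0 < n)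
  have hlnz : Real.log z ≤ Real.log n := Real.log_le_log hzr (by exact_mod_cast hn0.le)
  have hln : Real.log n ≤ (K + 1) * S.card * Real.log z := by
    have h1 : (n : ℝ) ≤ (z : ℝ) ^ ((K + 1) * S.card) := by exact_mod_cast hnz
    have h2 := Real.log_le_log hnr h1
    rw [Real.log_pow] at h2
    push_cast at h2
    exact h2
  have hlT : 0 < Real.log T := Real.log_pos (by linarith)
  -- the lower bound for `EE n`
  have hE : 2 * (K + 1) * (T : ℝ) ^ (9900 * T ^ 91) ≤ EE n := by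
    have h1 : (T : ℝ) ^ 92 ≤ Real.log (Real.log n) := by
      have h2 : Real.log ((T : ℝ) ^ w) ≤ Real.log (Real.log n) :=
        Real.log_le_log hTwr (hlz1.trans hlnz)
      rw [Real.log_pow] at h2
      have h3 : (w : ℝ) = (T : ℝ) ^ 92 := by rw [hw]; push_cast; ring
      rw [h3] at h2
      have h4 : 1 ≤ Real.log T := by
        rw [Real.le_log_iff_exp_le hT0]
        have := Real.exp_one_lt_d9
        linarith
      have h5 : (0 : ℝ) < (T : ℝ) ^ 92 := by positivity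
      nlinarith
    have h2 : (T : ℝ) ^ (91 : ℕ) * (T : ℝ) ^ (54 / 100 : ℝ) ≤
        (Real.log (Real.log n)) ^ (199 / 200 : ℝ) := by
      calc (T : ℝ) ^ (91 : ℕ) * (T : ℝ) ^ (54 / 100 : ℝ) = ((T : ℝ) ^ (92 : ℕ)) ^ (199 / 200 : ℝ) := by
            rw [← Real.rpow_natCast, ← Real.rpow_natCast, ← Real.rpow_mul hT0.le,
              ← Real.rpow_add hT0]
            norm_num
        _ ≤ _ := Real.rpow_le_rpow (by positivity) h1 (by norm_num)
    have h3 := hgr T hT5'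
    have h91 : (1 : ℝ) ≤ (T : ℝ) ^ 91 := one_le_pow₀ (by linarith)
    have hlK : 0 ≤ Real.log (2 * (K + 1)) := by
      apply Real.log_nonneg
      have : (0 : ℝ) ≤ K := by positivity
      linarith
    have h4 : Real.log (2 * (K + 1) * (T : ℝ) ^ (9900 * T ^ 91)) ≤
        (Real.log (Real.log n)) ^ (199 / 200 : ℝ) := by
      rw [Real.log_mul (by positivity) (by positivity), Real.log_pow]
      push_cast
      have h5 : (T : ℝ) ^ 91 * (9900 * Real.log T + Real.log (2 * (K + 1))) ≤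
          (T : ℝ) ^ 91 * (T : ℝ) ^ (54 / 100 : ℝ) := mul_le_mul_of_nonneg_left h3 (by positivity)
      have h6 : Real.log (2 * (K + 1)) ≤ (T : ℝ) ^ 91 * Real.log (2 * (K + 1)) := by
        nlinarith
      linarith
    unfold EE
    rwa [← Real.log_le_iff_le_exp (by positivity)]
  have hSr : (S.card : ℝ) ≤ (T : ℝ) ^ (9900 * T ^ 91) := by exact_mod_cast hScard
  have hS1 : (1 : ℝ) ≤ S.card := by exact_mod_cast card_pos.2 ⟨p0, hp0⟩
  have hKr : (0 : ℝ) ≤ K := by positivity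
  have hES : 2 * (K + 1) * (S.card : ℝ) ≤ EE n :=
    (mul_le_mul_of_nonneg_left hSr (by positivity)).trans hE
  have hE0 : 0 < EE n := Real.exp_pos _
  -- `log n / EE n ≤ log z / 2`
  have hdiv : Real.log n / EE n ≤ Real.log z / 2 := by
    rw [div_le_div_iff₀ hE0 (by norm_num)]
    nlinarith
  -- `|S| / z < exp (- log z / 2)`
  have hSz : (S.card : ℝ) / z < Real.exp (-(Real.log n / EE n)) := by
    have h1 : Real.exp (-(Real.log z / 2)) ≤ Real.exp (-(Real.log n / EE n)) :=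
      Real.exp_le_exp.2 (by linarith)
    refine lt_of_lt_of_le ?_ h1
    rw [div_lt_iff₀ hzr]
    have h2 : Real.exp (-(Real.log z / 2)) * z = Real.exp (Real.log z / 2) := by
      nth_rewrite 2 [← Real.exp_log hzr]
      rw [← Real.exp_add]; congr 1; ring
    rw [h2]
    have h3 : Real.log (S.card : ℝ) < Real.log z / 2 := by
      have h4 : Real.log (S.card : ℝ) ≤ 9900 * (T : ℝ) ^ 91 * Real.log T := by
        have h5 := Real.log_le_log (by linarith) hSr
        rw [Real.log_pow] at h5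
        push_cast at h5
        exact h5
      have h6 : Real.log T ≤ T := (Real.log_le_sub_one_of_pos hT0).trans (by linarith)
      have h7 : 9900 * (T : ℝ) ^ 91 * Real.log T ≤ 9900 * (T : ℝ) ^ 92 := by
        have : (0 : ℝ) < (T : ℝ) ^ 91 := by positivity
        calc 9900 * (T : ℝ) ^ 91 * Real.log T ≤ 9900 * (T : ℝ) ^ 91 * T :=
              mul_le_mul_of_nonneg_left h6 (by positivity)
          _ = 9900 * (T : ℝ) ^ 92 := by ring
      have h8 : 20000 * (T : ℝ) ^ 92 ≤ (T : ℝ) ^ w := by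
        have h9 : 20000 * T ^ 92 ≤ T ^ w := by
          have h1 : 20000 ≤ T ^ 2 := by nlinarith
          calc 20000 * T ^ 92 ≤ T ^ 2 * T ^ 92 := Nat.mul_le_mul_right _ h1
            _ = T ^ 94 := by rw [← pow_add]
            _ ≤ T ^ w := by
              apply Nat.pow_le_pow_right (by omega)
              calc 94 ≤ 2 ^ 92 := by norm_num
                _ ≤ T ^ 92 := Nat.pow_le_pow_left (by omega) 92
        exact_mod_cast h9
      have h10 : (0 : ℝ) < (T : ℝ) ^ 92 := by positivity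
      linarith
    calc (S.card : ℝ) = Real.exp (Real.log S.card) := (Real.exp_log (by linarith)).symm
      _ < _ := Real.exp_lt_exp.2 h3
  refine ⟨n, by omega, by omega, hkor.1, hkor2.2, ?_, ?_, ?_⟩
  · rw [hkor2.1]
    nlinarith
  · intro p hp hpn
    have hpS : p ∈ S := by
      rw [← hkor2.1]
      exact Nat.mem_primeFactors.2 ⟨hp, hpn, by omega⟩
    have h1 : Real.log z ≤ Real.log p := Real.log_le_log hzr
      (by exact_mod_cast (hPm p (hSP hpS)).2.1.le)
    linarith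
  · refine lt_of_lt_of_le ?_ hkor.2
    apply mul_lt_mul_of_pos_right _ hnr
    linarith

end Pool.Agent.W16.CM
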